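import Pool.Agent.Helper88.SlabFourier

set_option autoImplicit false

open MeasureTheory Set Real
open Pool.Agent.Helper88.Slab (prob ind A cube U)

namespace Pool.Agent.Helper89.FA

open Pool.Agent.Helper88.Slab in
private lemma conc_good {t t' l : ℝ} (ht : 0 ≤ t) (htt : t ≤ t') (hl0 : 0 ≤ l) (hl1 : l ≤ 1) :
    Good0 (fun y => ind ((1 - l) * t + l * t') y - ((1 - l) * ind t y + l * ind t' y)) := by
  have ht' : 0 ≤ t' := ht.trans htt
  have hT : 0 ≤ (1 - l) * t + l * t' :=
    add_nonneg (mul_nonneg (by linarith) ht) (mul_nonneg hl0 ht')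
  have i1 : ∀ s x y, IntervalIntegrable (ind s) volume x y := ind_intervalIntegrable
  refine ⟨fun x y => (i1 _ x y).sub (((i1 t x y).const_mul (1 - l)).add ((i1 t' x y).const_mul l)), ?_, ?_⟩
  · intro y; simp only [ind_even]
  · intro v hv
    rw [intervalIntegral.integral_sub (i1 _ 0 v)
      (((i1 t 0 v).const_mul (1 - l)).add ((i1 t' 0 v).const_mul l)),
      intervalIntegral.integral_add ((i1 t 0 v).const_mul (1 - l)) ((i1 t' 0 v).const_mul l),
      intervalIntegral.integral_const_mul, intervalIntegral.integral_const_mul,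
      integral_ind_nonneg hT hv, integral_ind_nonneg ht hv, integral_ind_nonneg ht' hv]
    have h1 : (1 - l) * min t v ≤ (1 - l) * t := mul_le_mul_of_nonneg_left (min_le_left _ _) (by linarith)
    have h2 : l * min t' v ≤ l * t' := mul_le_mul_of_nonneg_left (min_le_left _ _) hl0
    have h3 : (1 - l) * min t v ≤ (1 - l) * v := mul_le_mul_of_nonneg_left (min_le_right _ _) (by linarith)
    have h4 : l * min t' v ≤ l * v := mul_le_mul_of_nonneg_left (min_le_right _ _) hl0
    have h5 : (1 - l) * min t v + l * min t' v ≤ min ((1 - l) * t + l * t') v := by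
      apply le_min <;> linarith
    linarith

private lemma int_ind_U (s b y : ℝ) : Integrable (fun u => ind s (b * u + y)) U := by
  refine Integrable.of_bound ((Pool.Agent.Helper88.Slab.ind_measurable s).comp
    (by fun_prop)).aestronglyMeasurable 1 ?_
  filter_upwards with u
  rw [Real.norm_eq_abs, abs_of_nonneg (Pool.Agent.Helper88.Slab.ind_nonneg _ _)]
  exact Pool.Agent.Helper88.Slab.ind_le_one _ _

theorem prob_concave {n : ℕ} (a : Fin n → ℝ) (i : Fin n) (hi : a i ≠ 0) {t t' l : ℝ} (ht : 0 ≤ t)
    (htt : t ≤ t') (hl0 : 0 ≤ l) (hl1 : l ≤ 1) :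
    (1 - l) * prob a t + l * prob a t' ≤ prob a ((1 - l) * t + l * t') := by
  obtain ⟨m, rfl⟩ : ∃ m, n = m + 1 := ⟨n - 1, by have := i.2; omega⟩
  have ht' : 0 ≤ t' := ht.trans htt
  have hT : 0 ≤ (1 - l) * t + l * t' :=
    add_nonneg (mul_nonneg (by linarith) ht) (mul_nonneg hl0 ht')
  have hs : 0 < |a i| := abs_pos.mpr hi
  have hgood := (conc_good ht htt hl0 hl1).A hs.ne'
  have hcube := hgood.cube (fun j => a (i.succAbove j))
  set T := (1 - l) * t + l * t' with hTdef
  have hA : ∀ y, A |a i| (fun y => ind T y - ((1 - l) * ind t y + l * ind t' y)) y =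
      A |a i| (ind T) y - ((1 - l) * A |a i| (ind t) y + l * A |a i| (ind t') y) := by
    intro y
    have f1 := integral_sub (int_ind_U T |a i| y)
      (((int_ind_U t |a i| y).const_mul (1 - l)).add ((int_ind_U t' |a i| y).const_mul l))
    have f2 := integral_add ((int_ind_U t |a i| y).const_mul (1 - l))
      ((int_ind_U t' |a i| y).const_mul l)
    rw [integral_const_mul, integral_const_mul] at f2
    simp only [Pi.add_apply] at f1 f2
    rw [A, A, A, A, f1, f2]
  simp_rw [hA] at hcube
  have c : ∀ s, 0 ≤ s → Continuous (A |a i| (ind s)) :=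
    fun s hs' => Pool.Agent.Helper88.Slab.A_ind_cont hs hs'
  have ci : ∀ s, 0 ≤ s → Integrable (fun y : Fin m → ℝ => A |a i| (ind s)
      (∑ j, a (i.succAbove j) * y j)) (cube m) :=
    fun s hs' => Pool.Agent.Helper88.Slab.integrable_cube (by have := c s hs'; fun_prop)
  have e1 := integral_sub (ci T hT) (((ci t ht).const_mul (1 - l)).add ((ci t' ht').const_mul l))
  have e2 := integral_add ((ci t ht).const_mul (1 - l)) ((ci t' ht').const_mul l)
  rw [integral_const_mul, integral_const_mul] at e2
  rw [← Pool.Agent.Helper88.Slab.prob_split, ← Pool.Agent.Helper88.Slab.prob_split] at e2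
  simp only [Pi.add_apply] at e1 e2 hcube
  rw [e1, ← Pool.Agent.Helper88.Slab.prob_split, e2] at hcube
  linarith

/-- The indicator of `|z| = t`. -/
private noncomputable def bd (t z : ℝ) : ℝ := if |z| = t then 1 else 0

private lemma bd_measurable (t : ℝ) : Measurable (bd t) := by
  unfold bd
  apply Measurable.ite _ measurable_const measurable_const
  exact measurableSet_eq_fun (by fun_prop) (by fun_prop)

private lemma bd_nonneg (t z : ℝ) : 0 ≤ bd t z := by
  unfold bd; split_ifs <;> norm_num

private lemma bd_le_one (t z : ℝ) : bd t z ≤ 1 := by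
  unfold bd; split_ifs <;> norm_num

private lemma bd_integrable {n : ℕ} (t : ℝ) (a : Fin n → ℝ) :
    Integrable (fun x : Fin n → ℝ => bd t (∑ j, a j * x j)) (cube n) := by
  refine Integrable.of_bound ?_ 1 ?_
  · exact ((bd_measurable t).comp (by fun_prop)).aestronglyMeasurable
  · filter_upwards with x
    rw [Real.norm_eq_abs, abs_of_nonneg (bd_nonneg _ _)]
    exact bd_le_one _ _

private lemma A_bd {b : ℝ} (hb : b ≠ 0) (t y : ℝ) : A b (bd t) y = 0 := by
  rw [Pool.Agent.Helper88.Slab.A_eq, mul_eq_zero]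
  right
  have hfin : ({(t - y) / b, (-t - y) / b} : Set ℝ).Finite := by simp
  have h0 : ∀ᵐ u : ℝ ∂volume, u ∉ ({(t - y) / b, (-t - y) / b} : Set ℝ) :=
    (measure_eq_zero_iff_ae_notMem).1 (hfin.measure_zero volume)
  have : ∫ u in (-1:ℝ)..1, bd t (b * u + y) = ∫ u in (-1:ℝ)..1, (0:ℝ) := by
    apply intervalIntegral.integral_congr_ae
    filter_upwards [h0] with u hu _
    unfold bd
    rw [if_neg]
    intro habs
    apply hu
    simp only [mem_insert_iff, mem_singleton_iff]
    rcases abs_choice (b * u + y) with h | h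
    · left
      rw [h] at habs
      field_simp
      linarith
    · right
      rw [h] at habs
      field_simp
      linarith
  rw [this]; simp

private lemma bd_null {n : ℕ} (a : Fin n → ℝ) (i : Fin n) (hi : a i ≠ 0) (t : ℝ) :
    ∀ᵐ x ∂(cube n), |∑ j, a j * x j| ≠ t := by
  obtain ⟨m, rfl⟩ : ∃ m, n = m + 1 := ⟨n - 1, by have := i.2; omega⟩
  have h1 : ∫ x, bd t (∑ j, a j * x j) ∂(cube (m + 1)) = 0 := by
    rw [Pool.Agent.Helper88.Slab.cube_split i a (bd t) (bd_integrable t a)]
    simp only [A_bd hi]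
    simp
  have h2 := (integral_eq_zero_iff_of_nonneg (fun x => bd_nonneg _ _) (bd_integrable t a)).1 h1
  filter_upwards [h2] with x hx habs
  simp only [bd, if_pos habs, Pi.zero_apply] at hx
  norm_num at hx

theorem prob_tendsto {n : ℕ} (a : ℕ → Fin n → ℝ) (a₀ : Fin n → ℝ)
    (h : ∀ j, Filter.Tendsto (fun k => a k j) Filter.atTop (nhds (a₀ j))) (i : Fin n)
    (hi : a₀ i ≠ 0) {t : ℝ} (ht : 0 < t) :
    Filter.Tendsto (fun k => prob (a k) t) Filter.atTop (nhds (prob a₀ t)) := by
  unfold prob
  apply tendsto_integral_of_dominated_convergence (fun _ => (1:ℝ))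
  · intro k
    exact (Pool.Agent.Helper88.Slab.ind_integrable_cube t (a k)).aestronglyMeasurable
  · exact integrable_const _
  · intro k
    filter_upwards with x
    rw [Real.norm_eq_abs, abs_of_nonneg (Pool.Agent.Helper88.Slab.ind_nonneg _ _)]
    exact Pool.Agent.Helper88.Slab.ind_le_one _ _
  · filter_upwards [bd_null a₀ i hi t] with x hx
    have hS : Filter.Tendsto (fun k => |∑ j, a k j * x j|) Filter.atTop
        (nhds |∑ j, a₀ j * x j|) := by
      apply Filter.Tendsto.abs
      apply tendsto_finsetSum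
      intro j _
      exact (h j).mul_const _
    apply tendsto_const_nhds.congr'
    rcases lt_or_gt_of_ne hx with h1 | h1
    · filter_upwards [hS.eventually_lt_const h1] with k hk
      simp only [ind, if_pos h1.le, if_pos hk.le]
    · filter_upwards [hS.eventually_const_lt h1] with k hk
      simp only [ind, if_neg (not_le.mpr h1), if_neg (not_le.mpr hk)]

end Pool.Agent.Helper89.FA
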